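import Pool.Agent.Helper88.GM.Goals
import Pool.Agent.Helper88.PP.Fin

/-! # The frequency of large gaps -/

set_option autoImplicit false

open Finset Filter Topology

open scoped Classical

namespace Pool.Agent.Helper85.GM

open Pool.Agent.Helper88.GM
open Pool.Agent.Helper88.LG (idx StmtUU gap_of_idx ncard_ge)
open Pool.Agent.Helper88.PP (le_nth_idx count_step)

theorem final_cmp {c0 C1 lam x x0 I g : ℝ} (hc0 : 0 < c0) (hC1 : 1 ≤ C1) (hlamA : 1 ≤ lam)
    (hlamB : Real.log (12 / c0) ≤ lam) (hx : x ≤ 2 * x0) (hI0 : 0 ≤ I) (hG : c0 / 2 * x0 ≤ g)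
    (h1 : g ≤ I * (3 * Real.exp (Real.exp (C1 * (lam + 1))))) :
    x * Real.exp (-Real.exp ((2 * C1 + 1) * lam)) ≤ I := by
  set W : ℝ := Real.exp (Real.exp (C1 * (lam + 1))) with hW
  have hWpos : 0 < W := Real.exp_pos _
  have h2 : c0 / 12 * x ≤ I * W := by
    have h3 : c0 * x ≤ c0 * (2 * x0) := mul_le_mul_of_nonneg_left hx hc0.le
    linarith
  have h3 : 12 / c0 * W ≤ Real.exp (Real.exp ((2 * C1 + 1) * lam)) := by
    have h4 : 12 / c0 ≤ Real.exp lam := by
      rw [← Real.exp_log (by positivity : 0 < 12 / c0)]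
      exact Real.exp_le_exp.2 hlamB
    calc 12 / c0 * W ≤ Real.exp lam * W := mul_le_mul_of_nonneg_right h4 hWpos.le
      _ = Real.exp (lam + Real.exp (C1 * (lam + 1))) := by rw [hW, ← Real.exp_add]
      _ ≤ _ := by
        apply Real.exp_le_exp.2
        have h9 : C1 * 1 ≤ C1 * lam := mul_le_mul_of_nonneg_left hlamA (by linarith)
        have h5 : Real.exp (C1 * (lam + 1)) ≤ Real.exp (2 * C1 * lam) :=
          Real.exp_le_exp.2 (by linarith)
        have h6 : Real.exp ((2 * C1 + 1) * lam) = Real.exp (2 * C1 * lam) * Real.exp lam := by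
          rw [← Real.exp_add]
          congr 1
          ring
        rw [h6]
        have h7 : lam + 1 ≤ Real.exp lam := Real.add_one_le_exp lam
        have h8 : 1 ≤ Real.exp (2 * C1 * lam) := Real.one_le_exp (by linarith)
        have h10 : Real.exp (2 * C1 * lam) * (lam + 1) ≤ Real.exp (2 * C1 * lam) * Real.exp lam :=
          mul_le_mul_of_nonneg_left h7 (by linarith)
        have h11 : 1 * lam ≤ Real.exp (2 * C1 * lam) * lam :=
          mul_le_mul_of_nonneg_right h8 (by linarith)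
        linarith
  have h4 : x * Real.exp (-Real.exp ((2 * C1 + 1) * lam)) =
      x / Real.exp (Real.exp ((2 * C1 + 1) * lam)) := by
    rw [Real.exp_neg, div_eq_mul_inv]
  rw [h4, div_le_iff₀ (Real.exp_pos _)]
  calc x = 12 / c0 * (c0 / 12 * x) := by field_simp
    _ ≤ 12 / c0 * (I * W) := mul_le_mul_of_nonneg_left h2 (by positivity)
    _ = I * (12 / c0 * W) := by ring
    _ ≤ _ := mul_le_mul_of_nonneg_left h3 hI0

theorem uf (h : StmtMO) (hUU : Pool.Agent.Helper88.LG.StmtUU) : StmtUF := by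
  obtain ⟨c0, hc0, hU⟩ := hUU
  obtain ⟨C1, hC1, x1, hT⟩ := h (c0 / 4) (by positivity)
  have hC1' : 0 < C1 := by linarith
  refine ⟨1 / (4 * C1), 2 * C1 + 1, by positivity, ?_⟩
  have hlog : Tendsto (fun x : ℕ => Real.log (x : ℝ)) atTop atTop :=
    Real.tendsto_log_atTop.comp tendsto_natCast_atTop_atTop
  have hlog2 : Tendsto (fun x : ℕ => Real.log (Real.log (x : ℝ))) atTop atTop :=
    Real.tendsto_log_atTop.comp hlog
  have hlog3 : Tendsto (fun x : ℕ => Real.log (Real.log (Real.log (x : ℝ)))) atTop atTop :=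
    Real.tendsto_log_atTop.comp hlog2
  have hsmall : ∀ᶠ x : ℕ in atTop, Real.exp (Real.log x / 2) ≤ c0 / 4 * x := by
    have h1 : Tendsto (fun x : ℕ => Real.exp (Real.log x / 2)) atTop atTop :=
      Real.tendsto_exp_atTop.comp (hlog.atTop_div_const (by norm_num))
    filter_upwards [h1.eventually_ge_atTop (4 / c0), eventually_ge_atTop 1] with x h1 h2
    have h3 : (0 : ℝ) < x := by exact_mod_cast h2
    have h4 : Real.exp (Real.log x / 2) * Real.exp (Real.log x / 2) = x := by
      rw [← Real.exp_add, add_halves, Real.exp_log h3]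
    have h5 : 0 < Real.exp (Real.log x / 2) := Real.exp_pos _
    have h6 : 1 ≤ c0 / 4 * Real.exp (Real.log x / 2) := by
      have := mul_le_mul_of_nonneg_left h1 (by positivity : 0 ≤ c0 / 4)
      have h7 : c0 / 4 * (4 / c0) = 1 := by field_simp
      linarith
    calc Real.exp (Real.log x / 2) = 1 * Real.exp (Real.log x / 2) := (one_mul _).symm
      _ ≤ (c0 / 4 * Real.exp (Real.log x / 2)) * Real.exp (Real.log x / 2) :=
        mul_le_mul_of_nonneg_right h6 h5.le
      _ = c0 / 4 * x := by rw [mul_assoc, h4]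
  obtain ⟨N0, hN0⟩ := (hU.and (hsmall.and ((hlog2.eventually_ge_atTop (4 * C1 + 4)).and
    ((hlog3.eventually_ge_atTop (max 1 (Real.log (12 / c0)))).and
      ((hlog.eventually_ge_atTop 8).and ((eventually_ge_atTop 8).and
        (eventually_ge_atTop x1))))))).exists_forall_of_atTop
  refine ⟨(N0 : ℝ) + 1, fun x hx lam hlam1 hlam2 => ?_⟩
  set x0 : ℕ := ⌊x⌋₊ with hx0
  have hxpos : 0 ≤ x := le_trans (by positivity) hx
  have hx0le : (x0 : ℝ) ≤ x := Nat.floor_le hxpos
  have hx0lt : x < x0 + 1 := Nat.lt_floor_add_one x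
  have hN : N0 ≤ x0 := Nat.le_floor (by linarith)
  obtain ⟨hU0, hs0, hl2, hl3, hl1, h8, hx1⟩ := hN0 x0 hN
  have hx08 : (8 : ℝ) ≤ x0 := by exact_mod_cast h8
  have hx0pos : (0 : ℝ) < x0 := by linarith
  have hlogpos : 0 < Real.log x0 := by linarith
  have hl2pos : 0 < Real.log (Real.log x0) := by linarith
  -- comparisons of the logarithms
  have a1 : Real.log x0 ≤ Real.log x := Real.log_le_log hx0pos hx0le
  have a2 : Real.log (Real.log x0) ≤ Real.log (Real.log x) := Real.log_le_log hlogpos a1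
  have a3 : Real.log (Real.log (Real.log x0)) ≤ Real.log (Real.log (Real.log x)) :=
    Real.log_le_log hl2pos a2
  have b1 : Real.log x ≤ Real.log x0 + 1 := by
    have h2 : Real.log x ≤ Real.log ((x0 : ℝ) * 2) :=
      Real.log_le_log (by linarith) (by linarith)
    rw [Real.log_mul (by linarith) (by norm_num)] at h2
    have h3 : Real.log 2 ≤ 1 := by
      have := Real.log_two_lt_d9
      linarith
    linarith
  have b2 : Real.log (Real.log x) ≤ Real.log (Real.log x0) + 1 := by
    have h2 : Real.log (Real.log x) ≤ Real.log (Real.log x0 * 2) :=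
      Real.log_le_log (by linarith) (by linarith)
    rw [Real.log_mul (by linarith) (by norm_num)] at h2
    have h3 : Real.log 2 ≤ 1 := by
      have := Real.log_two_lt_d9
      linarith
    linarith
  have hlam : max 1 (Real.log (12 / c0)) ≤ lam := hl3.trans (a3.trans hlam1)
  have hlamA : 1 ≤ lam := (le_max_left _ _).trans hlam
  have hlamB : Real.log (12 / c0) ≤ lam := (le_max_right _ _).trans hlam
  have hlam3 : Real.log (Real.log (Real.log x0)) ≤ lam + 1 := by linarith [a3.trans hlam1]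
  have hlam4 : 4 * (C1 * lam) ≤ Real.log (Real.log x) := by
    have : 4 * C1 * lam ≤ 4 * C1 * (1 / (4 * C1) * Real.log (Real.log x)) :=
      mul_le_mul_of_nonneg_left hlam2 (by positivity)
    have h2 : 4 * C1 * (1 / (4 * C1) * Real.log (Real.log x)) = Real.log (Real.log x) := by
      field_simp
    linarith
  have hlam5 : C1 * (lam + 1) ≤ Real.log (Real.log x0) - 1 := by
    rw [mul_add, mul_one]
    linarith
  have hlam6 : lam ≤ Real.log x0 := by
    have h1 : 1 * lam ≤ C1 * lam := mul_le_mul_of_nonneg_right hC1 (by linarith)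
    have h2 : Real.log (Real.log x0) ≤ Real.log x0 := by
      have := Real.log_le_sub_one_of_pos hlogpos
      linarith
    linarith
  set W : ℝ := Real.exp (Real.exp (C1 * (lam + 1))) with hW
  have hWpos : 0 < W := Real.exp_pos _
  have hW1 : W ≤ Real.exp (Real.log x0 / 2) := by
    rw [hW]
    apply Real.exp_le_exp.2
    have h1 : Real.exp (C1 * (lam + 1)) ≤ Real.exp (Real.log (Real.log x0) - 1) :=
      Real.exp_le_exp.2 hlam5
    rw [Real.exp_sub, Real.exp_log hlogpos] at h1
    refine h1.trans ?_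
    apply div_le_div_of_nonneg_left hlogpos.le (by norm_num)
    have := Real.add_one_le_exp 1
    linarith
  have hW2 : Real.log x0 ≤ W := by
    rw [hW]
    have h1 : Real.log (Real.log x0) ≤ Real.exp (C1 * (lam + 1)) := by
      have h2 : Real.log (Real.log (Real.log x0)) ≤ C1 * (lam + 1) := by
        have : 1 * (lam + 1) ≤ C1 * (lam + 1) := mul_le_mul_of_nonneg_right hC1 (by linarith)
        linarith
      calc Real.log (Real.log x0) = Real.exp (Real.log (Real.log (Real.log x0))) :=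
            (Real.exp_log hl2pos).symm
        _ ≤ _ := Real.exp_le_exp.2 h2
    calc Real.log x0 = Real.exp (Real.log (Real.log x0)) := (Real.exp_log hlogpos).symm
      _ ≤ _ := Real.exp_le_exp.2 h1
  have hT0 := hT x0 hx1 (lam + 1) hlam3 (by linarith)
  set T : ℕ := ⌊W⌋₊ with hTdef
  have hTle : (T : ℝ) ≤ W := Nat.floor_le hWpos.le
  set H : ℕ := ⌈(lam + 1) * Real.log x0⌉₊ with hH
  set L : ℕ := ⌈Real.log x0⌉₊ with hL
  have hLle : (L : ℝ) ≤ 2 * W := by
    have h1 : (L : ℝ) < Real.log x0 + 1 := Nat.ceil_lt_add_one (by linarith)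
    linarith
  -- the good set
  set U := (Ioc (x0 / 2) x0).filter (fun m : ℕ => ∃ q : ℕ, q.Prime ∧ q ≤ m ∧ m < q + L) with hUdef
  set Bd := (Ioc (x0 / 2) x0).filter (fun n => ∀ t : ℕ, (t : ℝ) ≤ W →
    ∃ p, p.Prime ∧ n + t < p ∧ p ≤ n + t + H) with hBd
  set G := (U \ Bd) \ (Ioc (x0 - T) x0) with hG
  have hUc : c0 * x0 ≤ (U.card : ℝ) := by
    rw [hUdef]
    exact hU0
  have hBc : (Bd.card : ℝ) ≤ c0 / 4 * x0 := by
    rw [hBd]
    exact hT0
  have hcardG : (U.card : ℝ) - Bd.card - (T : ℕ) ≤ (G.card : ℝ) := by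
    have h1 : U.card ≤ G.card + Bd.card + (Ioc (x0 - T) x0).card := by
      have h2 : U ⊆ G ∪ Bd ∪ (Ioc (x0 - T) x0) := by
        intro m hm
        by_cases h3 : m ∈ Bd
        · simp [h3]
        · by_cases h4 : m ∈ Ioc (x0 - T) x0
          · simp only [mem_union]
            exact Or.inr h4
          · simp only [mem_union]
            left; left
            rw [hG, Finset.mem_sdiff, Finset.mem_sdiff]
            exact ⟨⟨hm, h3⟩, h4⟩
      refine (Finset.card_le_card h2).trans ((Finset.card_union_le _ _).trans ?_)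
      exact Nat.add_le_add_right (Finset.card_union_le _ _) _
    have h5 : (Ioc (x0 - T) x0).card ≤ T := by
      rw [Nat.card_Ioc]
      omega
    have h6 : U.card ≤ G.card + Bd.card + T := by omega
    have h7 : (U.card : ℝ) ≤ G.card + Bd.card + (T : ℕ) := by exact_mod_cast h6
    linarith
  have hGc : c0 / 2 * x0 ≤ (G.card : ℝ) := by linarith
  -- the shifts
  have hch : ∀ m ∈ G, ∃ t, t ≤ T * 1 ∧ ∀ p, p.Prime → m + t < p → m + t + H < p := by
    intro m hm
    rw [hG, Finset.mem_sdiff, Finset.mem_sdiff] at hm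
    obtain ⟨⟨hm1, hm2⟩, _⟩ := hm
    have h3 : m ∈ Ioc (x0 / 2) x0 := (mem_filter.1 hm1).1
    have h4 : ¬ ∀ t : ℕ, (t : ℝ) ≤ W → ∃ p, p.Prime ∧ m + t < p ∧ p ≤ m + t + H := fun h =>
      hm2 (mem_filter.2 ⟨h3, h⟩)
    push Not at h4
    obtain ⟨t, ht, h5⟩ := h4
    refine ⟨t, ?_, h5⟩
    rw [mul_one]
    exact Nat.le_floor ht
  choose! t ht using hch
  have hmem : ∀ m ∈ G, m ∈ Ioc (x0 / 2) x0 ∧ m ≤ x0 - T ∧
      ∃ q, q.Prime ∧ q ≤ m ∧ m < q + L := by
    intro m hm
    rw [hG, Finset.mem_sdiff, Finset.mem_sdiff, hUdef, mem_filter] at hm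
    obtain ⟨⟨⟨h1, h2⟩, _⟩, h3⟩ := hm
    refine ⟨h1, ?_, h2⟩
    by_contra h4
    push Not at h4
    exact h3 (mem_Ioc.2 ⟨h4, (mem_Ioc.1 h1).2⟩)
  have hstep := count_step x0 T 1 L G t (fun m hm => by
    obtain ⟨h1, _, h3⟩ := hmem m hm
    have h4 := (mem_Ioc.1 h1).1
    exact ⟨by omega, h3, (ht m hm).1⟩)
  have hlamH : lam * Real.log x ≤ H := by
    calc lam * Real.log x ≤ lam * (Real.log x0 + 1) :=
          mul_le_mul_of_nonneg_left b1 (by linarith)
      _ ≤ (lam + 1) * Real.log x0 := by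
          rw [mul_add, add_mul, mul_one, one_mul]
          linarith
      _ ≤ H := Nat.le_ceil _
  have hnc := ncard_ge (x := x) (lam := lam) hxpos (H := H) hlamH (G.image (fun m => m + t m)) (by
    intro n hn
    rw [mem_image] at hn
    obtain ⟨m, hm, rfl⟩ := hn
    obtain ⟨h1, h2, _⟩ := hmem m hm
    obtain ⟨h3, h4⟩ := ht m hm
    have h5 := mem_Ioc.1 h1
    refine ⟨by omega, ?_, ?_⟩
    · have h6 : m + t m ≤ x0 := by
        have : 0 < m := by omega
        omega
      exact le_trans (by exact_mod_cast h6) hx0le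
    · intro h h7 h8 hp
      have := h4 _ hp (by omega)
      omega)
  refine le_trans ?_ hnc
  set I : ℝ := (((G.image (fun m => m + t m)).image idx).card : ℝ) with hI
  have hI0 : 0 ≤ I := Nat.cast_nonneg _
  have h1 : (G.card : ℝ) ≤ I * (3 * W) := by
    have h2 : (G.card : ℝ) ≤ I * (T * (1 : ℕ) + L) := by
      rw [hI]
      exact_mod_cast hstep
    refine h2.trans (mul_le_mul_of_nonneg_left ?_ hI0)
    push_cast
    linarith
  -- the final comparison
  exact final_cmp hc0 hC1 hlamA hlamB (by linarith) hI0 hGc h1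

end Pool.Agent.Helper85.GM
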